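import Mathlib
import Pool.Agent.Helper89.UB.Stmts

set_option autoImplicit false

/-!
# Log-concavity for hypergraphs in the window, from the case of graphs
-/

open Finset

namespace Pool.Agent.Helper89.UB

open scoped Classical in
lemma per_cover {n m : ℕ} (E E2 E3 : Finset (Finset (Fin n))) (r : ℕ)
    (h : ∀ e ∈ E, e ∈ E2 ∨ e ∈ E3 ∨ r ≤ e.card) :
    OP E2 univ m ⊆ OP E univ m ∪
      ((E3.biUnion fun e => (OP E2 univ m).filter (fun c => ∃ i, e ⊆ c i)) ∪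
        (OP E2 univ m).filter (fun c => ∃ i, r ≤ (c i).card)) := by
  intro c hc
  have hc' := hc
  unfold OP at hc'
  rw [mem_filter] at hc'
  obtain ⟨_, h1, h2, h3, h4⟩ := hc'
  by_cases hA : ∀ i, Al E (c i)
  · apply mem_union_left
    unfold OP
    rw [mem_filter]
    exact ⟨mem_univ _, h1, h2, h3, hA⟩
  · apply mem_union_right
    push Not at hA
    obtain ⟨i, hi⟩ := hA
    unfold Al at hi
    push Not at hi
    obtain ⟨e, he, hei⟩ := hi
    rcases h e he with h5 | h5 | h5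
    · exact absurd hei (h4 i e h5)
    · apply mem_union_left
      rw [mem_biUnion]
      exact ⟨e, h5, mem_filter.2 ⟨hc, i, hei⟩⟩
    · apply mem_union_right
      exact mem_filter.2 ⟨hc, i, h5.trans (card_le_card hei)⟩

open scoped Classical in
lemma per_count {n m : ℕ} (E E2 E3 : Finset (Finset (Fin n))) (r : ℕ)
    (h : ∀ e ∈ E, e ∈ E2 ∨ e ∈ E3 ∨ r ≤ e.card) :
    sur E2 univ m ≤ sur E univ m +
      (∑ e ∈ E3, ((OP E2 univ m).filter (fun c => ∃ i, e ⊆ c i)).card +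
        ((OP E2 univ m).filter (fun c => ∃ i, r ≤ (c i).card)).card) := by
  unfold sur
  refine (card_le_card (per_cover (m := m) E E2 E3 r h)).trans ?_
  refine (card_union_le _ _).trans ?_
  gcongr
  refine (card_union_le _ _).trans ?_
  gcongr
  exact card_biUnion_le

open scoped Classical in
lemma per_mono {n : ℕ} (E F : Finset (Finset (Fin n))) (h : F ⊆ E) (k : ℕ) :
    sur E univ k ≤ sur F univ k := by
  unfold sur
  apply card_le_card
  intro c hc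
  unfold OP at hc ⊢
  rw [mem_filter] at hc ⊢
  obtain ⟨h0, h1, h2, h3, h4⟩ := hc
  exact ⟨h0, h1, h2, h3, fun i e he => h4 i e (h he)⟩

lemma per_choose (n r : ℕ) (hr : 1 ≤ r) :
    (n.choose r : ℝ) * (r : ℝ) ^ r ≤ (Real.exp 1 * n) ^ r := by
  have h1 : (n.choose r : ℝ) ≤ (n : ℝ) ^ r / (r.factorial : ℝ) := Nat.choose_le_pow_div r n
  have h2 : (r : ℝ) ^ r / (r.factorial : ℝ) ≤ Real.exp r :=
    Real.pow_div_factorial_le_exp (r : ℝ) (by positivity) r
  have h3 : Real.exp (r : ℝ) = Real.exp 1 ^ r := by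
    rw [← Real.exp_nat_mul, mul_one]
  have h4 : (0 : ℝ) < (r.factorial : ℝ) := by positivity
  calc (n.choose r : ℝ) * (r : ℝ) ^ r ≤ ((n : ℝ) ^ r / (r.factorial : ℝ)) * (r : ℝ) ^ r := by
        gcongr
    _ = (n : ℝ) ^ r * ((r : ℝ) ^ r / (r.factorial : ℝ)) := by ring
    _ ≤ (n : ℝ) ^ r * Real.exp 1 ^ r := by
        rw [← h3]; gcongr
    _ = (Real.exp 1 * n) ^ r := by rw [mul_pow]; ring

/-- the blocks of size at least `40 log n` -/
lemma per_big (n m r : ℕ) (y S C : ℝ) (L : ℝ) (hL : 1 ≤ L) (hm : 1 ≤ m)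
    (hn : (n : ℝ) ≤ 1.46 * m * L) (hr : 40 * L ≤ r) (hS : 0 ≤ S) (hC : 0 ≤ C)
    (hy : 0.99 * (m : ℝ) ≤ y) (hy2 : y ≤ m)
    (h : y ^ (r - 1) * C ≤ n.choose r * S) (hx : 32 * (m : ℝ) ^ 2 ≤ Real.exp (2 * r)) :
    C * (32 * m) ≤ S := by
  have hr1 : 1 ≤ r := by
    have : (40 : ℝ) ≤ r := by linarith
    have h2 : (40 : ℕ) ≤ r := by exact_mod_cast this
    omega
  have hm0 : (0 : ℝ) < m := by exact_mod_cast hm
  have hy0 : 0 < y := by nlinarith
  have hr0 : (0 : ℝ) < r := by exact_mod_cast hr1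
  have e1 : y ^ r * C ≤ m * (n.choose r * S) := by
    have e2 : y ^ r = y * y ^ (r - 1) := by
      rw [← pow_succ', Nat.sub_add_cancel hr1]
    rw [e2, mul_assoc]
    exact mul_le_mul hy2 h (by positivity) (by positivity)
  have e3 : (y * r) ^ r * C ≤ m * ((Real.exp 1 * n) ^ r * S) := by
    rw [mul_pow]
    calc y ^ r * (r : ℝ) ^ r * C = (r : ℝ) ^ r * (y ^ r * C) := by ring
      _ ≤ (r : ℝ) ^ r * (m * (n.choose r * S)) := by gcongr
      _ = m * ((n.choose r * (r : ℝ) ^ r) * S) := by ring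
      _ ≤ m * ((Real.exp 1 * n) ^ r * S) := by
        have := per_choose n r hr1
        gcongr
  have e4 : Real.exp 1 * n * Real.exp 2 ≤ y * r := by
    have h1 := Real.exp_one_lt_d9
    have h0 := Real.exp_pos 1
    have h2 : Real.exp 2 = Real.exp 1 * Real.exp 1 := by rw [← Real.exp_add]; norm_num
    rw [h2]
    have h3 : Real.exp 1 * (Real.exp 1 * Real.exp 1) ≤ 21 := by
      have : Real.exp 1 ≤ 2.72 := by linarith
      calc Real.exp 1 * (Real.exp 1 * Real.exp 1) ≤ 2.72 * (2.72 * 2.72) := by gcongr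
        _ ≤ 21 := by norm_num
    have h4 : 0.99 * (m : ℝ) * (40 * L) ≤ y * r := by gcongr
    have h5 : (n : ℝ) * (Real.exp 1 * (Real.exp 1 * Real.exp 1)) ≤ (1.46 * m * L) * 21 := by
      gcongr
    have h6 : (0 : ℝ) ≤ m * L := by positivity
    nlinarith
  have e5 : (Real.exp 1 * n * Real.exp 2) ^ r * C ≤ m * ((Real.exp 1 * n) ^ r * S) := by
    refine le_trans ?_ e3
    gcongr
  have e6 : Real.exp 2 ^ r = Real.exp (2 * r) := by
    rw [← Real.exp_nat_mul]; congr 1; ring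
  rw [mul_pow, e6] at e5
  rcases Nat.eq_zero_or_pos n with hn0 | hn0
  · subst hn0
    have : (Nat.choose 0 r : ℝ) = 0 := by
      rw [Nat.choose_eq_zero_of_lt (by omega)]; simp
    rw [this, zero_mul] at h
    have h7 : C = 0 := by
      have : 0 < y ^ (r - 1) := by positivity
      nlinarith
    rw [h7]; linarith
  · have hn1 : (0 : ℝ) < n := by exact_mod_cast hn0
    have hp : 0 < (Real.exp 1 * n) ^ r := by positivity
    have e7 : Real.exp (2 * r) * C ≤ m * S := by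
      have : (Real.exp 1 * n) ^ r * (Real.exp (2 * r) * C) ≤ (Real.exp 1 * n) ^ r * (m * S) := by
        calc (Real.exp 1 * n) ^ r * (Real.exp (2 * r) * C)
            = (Real.exp 1 * n) ^ r * Real.exp (2 * r) * C := by ring
          _ ≤ m * ((Real.exp 1 * n) ^ r * S) := e5
          _ = _ := by ring
      exact le_of_mul_le_mul_left this hp
    have e8 : 32 * (m : ℝ) ^ 2 * C ≤ m * S := le_trans (by gcongr) e7
    have e9 : (m : ℝ) * (C * (32 * m)) ≤ m * S := by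
      calc (m : ℝ) * (C * (32 * m)) = 32 * (m : ℝ) ^ 2 * C := by ring
        _ ≤ _ := e8
    exact le_of_mul_le_mul_left e9 hm0

lemma per_sm {ι : Type} (s : Finset ι) (f : ι → ℝ) (m : ℕ) (S : ℝ) (hm : 1 ≤ m) (hS : 0 ≤ S)
    (hf0 : ∀ i ∈ s, 0 ≤ f i) (h : ∀ i ∈ s, f i * (0.98 * (m : ℝ) ^ 2) ≤ S)
    (hc : (s.card : ℝ) ≤ (1 / 1000000000) * (1.46 * m)) : (∑ i ∈ s, f i) * (32 * m) ≤ S := by
  have hm0 : (0 : ℝ) < m := by exact_mod_cast hm
  have g1 : (∑ i ∈ s, f i) * (0.98 * (m : ℝ) ^ 2) ≤ s.card * S := by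
    rw [sum_mul, ← nsmul_eq_mul]
    exact sum_le_card_nsmul _ _ _ h
  have g3 : (s.card : ℝ) * S ≤ ((1 / 1000000000) * (1.46 * m)) * S :=
    mul_le_mul_of_nonneg_right hc hS
  have hX0 : 0 ≤ ∑ i ∈ s, f i := sum_nonneg hf0
  generalize (∑ i ∈ s, f i) = X at *
  have g4 : (m : ℝ) * (X * (32 * m)) ≤ m * S := by
    have g5 : X * (0.98 * (m : ℝ) ^ 2) ≤ ((1 / 1000000000) * (1.46 * m)) * S := le_trans g1 g3
    have g6 : 0 ≤ (m : ℝ) * S := by positivity
    nlinarith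
  exact le_of_mul_le_mul_left g4 hm0

/-- the final comparison -/
lemma per_fin (m a b c S : ℕ) (A B : ℝ) (hm : 1 ≤ m) (hS : 0 < S)
    (h1 : (a : ℝ) ≤ A) (h2 : (b : ℝ) ≤ B) (hA : 0 ≤ A)
    (h3 : A * B ≤ (1 + 1 / (4 * m)) * (S : ℝ) ^ 2)
    (h4 : (S : ℝ) * (1 - 1 / (16 * m)) ≤ c) :
    0 < c ∧ m * (a * b) ≤ (m + 1) * c ^ 2 := by
  have hm0 : (1 : ℝ) ≤ m := by exact_mod_cast hm
  have hS0 : (0 : ℝ) < S := by exact_mod_cast hS
  have h5 : 1 / (16 * (m : ℝ)) ≤ 1 / 16 := by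
    apply one_div_le_one_div_of_le (by norm_num); linarith
  have h6 : (0 : ℝ) < c := by
    refine lt_of_lt_of_le ?_ h4
    apply mul_pos hS0; linarith
  refine ⟨by exact_mod_cast h6, ?_⟩
  have h7 : (a : ℝ) * b ≤ (1 + 1 / (4 * m)) * (S : ℝ) ^ 2 :=
    le_trans (mul_le_mul h1 h2 (by positivity) hA) h3
  have h8 : ((S : ℝ) * (1 - 1 / (16 * m))) ^ 2 ≤ (c : ℝ) ^ 2 := by
    have : 0 ≤ (S : ℝ) * (1 - 1 / (16 * m)) := by
      apply mul_nonneg hS0.le; linarith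
    gcongr
  have h9 : (m : ℝ) * (1 + 1 / (4 * m)) ≤ (m + 1) * (1 - 1 / (16 * m)) ^ 2 := by
    have e1 : (m : ℝ) * (1 + 1 / (4 * m)) = m + 1 / 4 := by field_simp
    have e2 : (1 - 1 / (16 * (m : ℝ))) ^ 2 ≥ 1 - 1 / (8 * m) := by
      have : (1 - 1 / (16 * (m : ℝ))) ^ 2 = 1 - 1 / (8 * m) + (1 / (16 * m)) ^ 2 := by
        field_simp; ring
      rw [this]; nlinarith [sq_nonneg (1 / (16 * (m : ℝ)))]
    have e3 : ((m : ℝ) + 1) * (1 - 1 / (8 * m)) = m + 1 - 1 / 8 - 1 / (8 * m) := by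
      field_simp; ring
    have e4 : 1 / (8 * (m : ℝ)) ≤ 1 / 8 := by
      apply one_div_le_one_div_of_le (by norm_num); linarith
    calc (m : ℝ) * (1 + 1 / (4 * m)) = m + 1 / 4 := e1
      _ ≤ (m + 1) * (1 - 1 / (8 * m)) := by rw [e3]; linarith
      _ ≤ _ := by gcongr
  have h10 : (m : ℝ) * ((a : ℝ) * b) ≤ (m + 1) * (c : ℝ) ^ 2 := by
    calc (m : ℝ) * ((a : ℝ) * b) ≤ m * ((1 + 1 / (4 * m)) * (S : ℝ) ^ 2) := by gcongr
      _ = (m * (1 + 1 / (4 * m))) * (S : ℝ) ^ 2 := by ring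
      _ ≤ ((m + 1) * (1 - 1 / (16 * m)) ^ 2) * (S : ℝ) ^ 2 := by gcongr
      _ = (m + 1) * ((S : ℝ) * (1 - 1 / (16 * m))) ^ 2 := by ring
      _ ≤ _ := by gcongr
  exact_mod_cast h10

theorem st_PER (h1 : ST_LCG) (h2 : ST_SUB) (h3 : ST_BIG) (h4 : ST_INB) (h5 : ST_HND) :
    ST_PER := by
  classical
  obtain ⟨n1, H1⟩ := h1
  obtain ⟨n5, H5⟩ := h5
  refine ⟨max (max n1 n5) 300, ?_⟩
  intro n hn E hE hdeg hfew m hm1 hm2
  have hn1 : n1 ≤ n := le_trans (le_trans (le_max_left _ _) (le_max_left _ _)) hn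
  have hn5 : n5 ≤ n := le_trans (le_trans (le_max_right _ _) (le_max_left _ _)) hn
  have hn3 : 300 ≤ n := le_trans (le_max_right _ _) hn
  have hnR : (300 : ℝ) ≤ n := by exact_mod_cast hn3
  have hn0 : (0 : ℝ) < n := by linarith
  set L := Real.log n with hLdef
  have hL : 1 ≤ L := by
    rw [hLdef, Real.le_log_iff_exp_le hn0]
    have := Real.exp_one_lt_d9
    linarith
  have hL0 : 0 < L := by linarith
  have hm : 1 ≤ m := by
    by_contra hcon
    have : m = 0 := by omega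
    subst this
    simp at hm1
    linarith
  have hmR : (1 : ℝ) ≤ m := by exact_mod_cast hm
  set E2 := E.filter (fun e => e.card = 2) with hE2
  set E3 := E.filter (fun e => 3 ≤ e.card ∧ (e.card : ℝ) < 40 * L) with hE3
  have hc2 : ∀ e ∈ E2, e.card = 2 := fun e he => (mem_filter.1 he).2
  have hd2 : ∀ v, deg2 E2 v = deg2 E v := by
    intro v
    unfold deg2
    congr 1
    ext e
    simp only [hE2, mem_filter]
    tauto
  have hdeg2 : ∀ v : Fin n, (deg2 E2 v : ℝ) * (E2.card : ℝ) ≤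
      (1 / 1000000000) * (n / Real.log n) ^ 2 := by
    intro v
    rw [hd2 v]
    exact hdeg v
  obtain ⟨hS, hLC⟩ := H1 n hn1 E2 hc2 hdeg2 m hm1 hm2
  obtain ⟨hΔ, _⟩ := H5 n hn5 E2 hc2 hdeg2
  have hnL : (n : ℝ) / L ≤ 1.46 * m := by
    rw [div_le_iff₀ hL0]; exact hm1
  set Δ := ⌊(1 / 30000 : ℝ) * (n / L)⌋₊ with hΔdef
  have hΔ1 : ∀ v, deg2 E2 v ≤ Δ := by
    intro v
    exact Nat.le_floor (hΔ v)
  have hIns : InsB E2 (Δ + 0 + n / (n + 2 - 1)) := by
    apply h4 n Δ 0 (n + 2) E2 (fun e he => by rw [hc2 e he]) (by omega) hΔ1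
    rw [Nat.le_zero, card_eq_zero, filter_eq_empty_iff]
    intro e he hcon
    rw [hc2 e he] at hcon
    omega
  have hD : Δ + 0 + n / (n + 2 - 1) = Δ := by
    rw [Nat.div_eq_of_lt (by omega)]
    rfl
  rw [hD] at hIns
  have hΔR : (Δ : ℝ) ≤ (1 / 100) * m := by
    have : (Δ : ℝ) ≤ (1 / 30000 : ℝ) * (n / L) := Nat.floor_le (by positivity)
    linarith
  have hΔm : Δ ≤ m := by
    have : (Δ : ℝ) ≤ m := by linarith
    exact_mod_cast this
  have hyR : ((m - Δ : ℕ) : ℝ) = (m : ℝ) - Δ := by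
    rw [Nat.cast_sub hΔm]
  have hy1 : 0.99 * (m : ℝ) ≤ ((m - Δ : ℕ) : ℝ) := by rw [hyR]; linarith
  have hy2 : ((m - Δ : ℕ) : ℝ) ≤ m := by
    rw [hyR]
    have : (0 : ℝ) ≤ Δ := by positivity
    linarith
  have hypos : 1 ≤ m - Δ := by
    have : (0 : ℝ) < ((m - Δ : ℕ) : ℝ) := by linarith
    have h7 : 0 < m - Δ := by exact_mod_cast this
    omega
  set r := ⌈40 * L⌉₊ with hr
  have hrR : 40 * L ≤ r := Nat.le_ceil _
  have hr1 : 1 ≤ r := by
    have : (40 : ℝ) ≤ r := by linarith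
    have h7 : (40 : ℕ) ≤ r := by exact_mod_cast this
    omega
  have hcov : ∀ e ∈ E, e ∈ E2 ∨ e ∈ E3 ∨ r ≤ e.card := by
    intro e he
    by_cases g1 : e.card = 2
    · left; exact mem_filter.2 ⟨he, g1⟩
    · right
      have g2 := hE e he
      by_cases g3 : (e.card : ℝ) < 40 * L
      · left; exact mem_filter.2 ⟨he, by omega, g3⟩
      · right
        push Not at g3
        exact Nat.ceil_le.2 g3
  have hcount := per_count (m := m) E E2 E3 r hcov
  -- small edges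
  have hsmall : ∀ e ∈ E3, (((OP E2 univ m).filter (fun c => ∃ i, e ⊆ c i)).card : ℝ) *
      (0.98 * (m : ℝ) ^ 2) ≤ sur E2 univ m := by
    intro e he
    have g1 : 3 ≤ e.card := (mem_filter.1 he).2.1
    have g2 := h2 n Δ m E2 hIns e (card_pos.1 (by omega))
    have g3 : (m - Δ) ^ 2 ≤ (m - Δ) ^ (e.card - 1) := Nat.pow_le_pow_right hypos (by omega)
    have g4 : (m - Δ) ^ 2 * ((OP E2 univ m).filter (fun c => ∃ i, e ⊆ c i)).card ≤
        sur E2 univ m := le_trans (Nat.mul_le_mul_right _ g3) g2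
    have g5 : ((m - Δ : ℕ) : ℝ) ^ 2 * (((OP E2 univ m).filter (fun c => ∃ i, e ⊆ c i)).card : ℝ) ≤
        sur E2 univ m := by exact_mod_cast g4
    refine le_trans ?_ g5
    rw [mul_comm]
    have g6 : 0.98 * (m : ℝ) ^ 2 ≤ ((m - Δ : ℕ) : ℝ) ^ 2 := by
      calc 0.98 * (m : ℝ) ^ 2 ≤ (0.99 * (m : ℝ)) ^ 2 := by nlinarith [sq_nonneg (m : ℝ)]
        _ ≤ _ := by gcongr
    gcongr
  have hbig : (((OP E2 univ m).filter (fun c => ∃ i, r ≤ (c i).card)).card : ℝ) * (32 * m) ≤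
      sur E2 univ m := by
    have g1 := h3 n Δ m r E2 hIns hr1
    have g2 : ((m - Δ : ℕ) : ℝ) ^ (r - 1) *
        (((OP E2 univ m).filter (fun c => ∃ i, r ≤ (c i).card)).card : ℝ) ≤
        n.choose r * sur E2 univ m := by exact_mod_cast g1
    apply per_big n m r ((m - Δ : ℕ) : ℝ) (sur E2 univ m) _ L hL hm hm1 hrR (by positivity)
      (by positivity) hy1 hy2 g2
    have g3 : (m : ℝ) ≤ 3 * n := by
      calc (m : ℝ) = m * 1 := by ring
        _ ≤ m * L := by gcongr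
        _ ≤ 3 * n := hm2
    have g4 : Real.exp (3 * L) ≤ Real.exp (2 * r) := by
      apply Real.exp_le_exp.2; linarith
    have g5 : Real.exp (3 * L) = (n : ℝ) ^ 3 := by
      rw [mul_comm, Real.exp_mul, hLdef, Real.exp_log hn0]
      norm_cast
    calc 32 * (m : ℝ) ^ 2 ≤ 32 * (3 * (n : ℝ)) ^ 2 := by gcongr
      _ = 288 * (n : ℝ) ^ 2 := by ring
      _ ≤ n * (n : ℝ) ^ 2 := by gcongr; linarith
      _ = (n : ℝ) ^ 3 := by ring
      _ ≤ _ := by rw [← g5]; exact g4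
  have hsum : (∑ e ∈ E3, (((OP E2 univ m).filter (fun c => ∃ i, e ⊆ c i)).card : ℝ)) *
      (32 * m) ≤ sur E2 univ m := by
    have g2 : (E3.card : ℝ) ≤ (1 / 1000000000) * (1.46 * m) := by
      refine le_trans hfew ?_
      gcongr
    exact per_sm E3 _ m _ hm (Nat.cast_nonneg _) (fun e _ => Nat.cast_nonneg _) hsmall g2
  have hfin : (sur E2 univ m : ℝ) * (1 - 1 / (16 * m)) ≤ sur E univ m := by
    have g1 : (sur E2 univ m : ℝ) ≤ sur E univ m +
        ((∑ e ∈ E3, (((OP E2 univ m).filter (fun c => ∃ i, e ⊆ c i)).card : ℝ)) +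
          (((OP E2 univ m).filter (fun c => ∃ i, r ≤ (c i).card)).card : ℝ)) := by
      exact_mod_cast hcount
    have g2 : (∑ e ∈ E3, (((OP E2 univ m).filter (fun c => ∃ i, e ⊆ c i)).card : ℝ)) ≤
        (sur E2 univ m : ℝ) / (32 * m) := by
      rw [le_div_iff₀ (by positivity)]; exact hsum
    have g3 : (((OP E2 univ m).filter (fun c => ∃ i, r ≤ (c i).card)).card : ℝ) ≤
        (sur E2 univ m : ℝ) / (32 * m) := by
      rw [le_div_iff₀ (by positivity)]; exact hbig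
    have g4 : (sur E2 univ m : ℝ) * (1 - 1 / (16 * m)) =
        sur E2 univ m - ((sur E2 univ m : ℝ) / (32 * m) + (sur E2 univ m : ℝ) / (32 * m)) := by
      field_simp; ring
    rw [g4]
    linarith
  have hmono : ∀ k, (sur E univ k : ℝ) ≤ sur E2 univ k := by
    intro k
    exact_mod_cast per_mono E E2 (filter_subset _ _) k
  exact per_fin m (sur E univ (m - 1)) (sur E univ (m + 1)) (sur E univ m) (sur E2 univ m)
    (sur E2 univ (m - 1)) (sur E2 univ (m + 1)) hm hS (hmono _) (hmono _) (by positivity) hLC hfin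

end Pool.Agent.Helper89.UB
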